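import Mathlib

/-!
Definitions for the statement: oracle algorithms for two matroids on `Fin n` given by
independence oracles, and maximum-weight `k`-feasible sets.
-/

namespace Pool.Agent.Lib.MP_1bbcfd_lc

/-- A deterministic procedure with oracle access, on the ground set `α`.  Given the list of the
oracle answers received so far (latest first), it either asks a question `(i, J)`
(is `J` independent in the first matroid, if `i = true`, in the second one, if `i = false`?)
or halts with an output set.  Computation between the oracle calls is free and unrestricted. -/
abbrev Procedure (α : Type) : Type := List Bool → (Bool × Finset α) ⊕ Finset α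

/-- `run σ O t h` is the output of the procedure `σ`, continued from the list `h` of answers and
answered by the oracle `O`, if it halts after at most `t` further oracle calls; otherwise `none`. -/
def run {α : Type} (σ : Procedure α) (O : Bool × Finset α → Bool) :
    ℕ → List Bool → Option (Finset α)
  | 0, h =>
    match σ h with
    | Sum.inl _ => none
    | Sum.inr X => some X
  | t + 1, h =>
    match σ h with
    | Sum.inl q => run σ O t (O q :: h)
    | Sum.inr X => some X

open Classical in
/-- The pair of independence oracles of `M₁` and `M₂`. -/
noncomputable def oracle {α : Type} (M₁ M₂ : Matroid α) (q : Bool × Finset α) : Bool :=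
  if q.1 = true then decide (M₁.Indep (q.2 : Set α)) else decide (M₂.Indep (q.2 : Set α))

/-- A randomised oracle algorithm.  On the explicit part `(n, w, k)` of the input it draws a seed
uniformly from the `seeds n w k + 1` possible ones and then runs a deterministic procedure.
Deterministic algorithms are those with `seeds = 0`. -/
structure OracleAlgorithm where
  /-- the number of seeds, minus one -/
  seeds : (n : ℕ) → (Fin n → ℚ) → ℕ → ℕ
  /-- the procedure run for a given input and seed -/
  proc : (n : ℕ) → (w : Fin n → ℚ) → (k : ℕ) → Fin (seeds n w k + 1) → Procedure (Fin n)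

/-- The input size: the size of the ground set plus the bit size of the weights. -/
def inputSize (n : ℕ) (w : Fin n → ℚ) : ℕ :=
  n + ∑ e : Fin n, (Nat.size (w e).num.natAbs + Nat.size (w e).den)

/-- `X` is `k`-feasible: it has `k` elements and lies in a common base of `M₁` and `M₂`. -/
def Feasible {α : Type} (M₁ M₂ : Matroid α) (k : ℕ) (X : Finset α) : Prop :=
  X.card = k ∧ ∃ B : Set α, M₁.IsBase B ∧ M₂.IsBase B ∧ (X : Set α) ⊆ B

/-- `X` is a `k`-feasible set of maximum weight. -/
def Optimal {α : Type} (M₁ M₂ : Matroid α) (w : α → ℚ) (k : ℕ) (X : Finset α) : Prop :=
  Feasible M₁ M₂ k X ∧ ∀ Y : Finset α, Feasible M₁ M₂ k Y → ∑ e ∈ Y, w e ≤ ∑ e ∈ X, w e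

end Pool.Agent.Lib.MP_1bbcfd_lc
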