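import Pool.Agent.Lib.MP_1bbcfd_lc.Defs

namespace Pool.Agent.Lib.MP_1bbcfd_lc

open Finset

/-! ### The adversary lemma -/

theorem adversary {α ι : Type} [DecidableEq ι] (σ : Procedure α)
    (O₀ : Bool × Finset α → Bool) (O : ι → Bool × Finset α → Bool)
    (key : Finset α → ι) (hO : ∀ i q, key q.2 ≠ i → O i q = O₀ q) :
    ∀ (t : ℕ) (h : List Bool), ∃ s : Finset ι, s.card ≤ t + 1 ∧
      ∀ i X, run σ (O i) t h = some X → key X = i → i ∈ s := by
  intro t
  induction t with
  | zero =>
    intro h
    rcases hσ : σ h with q | X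
    · refine ⟨∅, by simp, ?_⟩
      intro i X hX
      simp [run, hσ] at hX
    · refine ⟨{key X}, by simp, ?_⟩
      intro i Y hY hk
      simp only [run, hσ, Option.some.injEq] at hY
      subst hY
      simp [hk]
  | succ t ih =>
    intro h
    rcases hσ : σ h with q | X
    · obtain ⟨s, hs, hs'⟩ := ih (O₀ q :: h)
      refine ⟨insert (key q.2) s, (card_insert_le _ _).trans (by omega), ?_⟩
      intro i X hX hk
      by_cases hi : key q.2 = i
      · simp [hi]
      · simp only [run, hσ] at hX
        rw [hO i q hi] at hX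
        exact mem_insert_of_mem (hs' i X hX hk)
    · refine ⟨{key X}, by simp, ?_⟩
      intro i Y hY hk
      simp only [run, hσ, Option.some.injEq] at hY
      subst hY
      simp [hk]

/-! ### Columns -/

section Cols

variable {α : Type} [DecidableEq α] {m : ℕ} (e : Fin m × Fin 4 ≃ α)

/-- the rows `i` with `e (i, c) ∈ J` -/
def col (c : Fin 4) (J : Finset α) : Finset (Fin m) := univ.filter (fun i => e (i, c) ∈ J)

theorem mem_col {c : Fin 4} {J : Finset α} {i : Fin m} : i ∈ col e c J ↔ e (i, c) ∈ J := by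
  simp [col]

theorem col_mono (c : Fin 4) {I J : Finset α} (h : I ⊆ J) : col e c I ⊆ col e c J := by
  intro i hi
  rw [mem_col] at hi ⊢
  exact h hi

theorem col_insert_same (c : Fin 4) (i : Fin m) (J : Finset α) :
    col e c (insert (e (i, c)) J) = insert i (col e c J) := by
  ext j
  simp [mem_col]

theorem col_insert_ne {c d : Fin 4} (hcd : c ≠ d) (i : Fin m) (J : Finset α) :
    col e c (insert (e (i, d)) J) = col e c J := by
  ext j
  simp [mem_col, hcd]

theorem sum_cols (f : Fin 4 → ℚ) (J : Finset α) :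
    ∑ a ∈ J, f (e.symm a).2 = ∑ c : Fin 4, f c * (col e c J).card := by
  have h1 : ∑ a ∈ J, f (e.symm a).2
      = ∑ p ∈ (univ : Finset (Fin m × Fin 4)).filter (fun p => e p ∈ J), f p.2 := by
    symm
    refine Finset.sum_bij (fun p _ => e p) ?_ ?_ ?_ ?_
    · intro p hp; simpa using hp
    · intro p _ q _ h; exact e.injective h
    · intro a ha; exact ⟨e.symm a, by simpa using ha, by simp⟩
    · intro p _; simp
  rw [h1, sum_filter, Fintype.sum_prod_type_right]
  refine sum_congr rfl fun c _ => ?_
  rw [← sum_filter]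
  simp [col, mul_comm]

theorem card_cols (J : Finset α) :
    J.card = (col e 0 J).card + (col e 1 J).card + (col e 2 J).card + (col e 3 J).card := by
  have h := sum_cols e (fun _ => 1) J
  simp only [sum_const, nsmul_eq_mul, mul_one, one_mul, Fin.sum_univ_four] at h
  exact_mod_cast h

/-- the set with prescribed columns -/
def ofCols (A : Fin 4 → Finset (Fin m)) : Finset α :=
  ((univ : Finset (Fin m × Fin 4)).filter (fun p => p.1 ∈ A p.2)).map e.toEmbedding

omit [DecidableEq α] in
theorem mem_ofCols (A : Fin 4 → Finset (Fin m)) (i : Fin m) (c : Fin 4) :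
    e (i, c) ∈ ofCols e A ↔ i ∈ A c := by
  simp [ofCols]

theorem col_ofCols (A : Fin 4 → Finset (Fin m)) (c : Fin 4) : col e c (ofCols e A) = A c := by
  ext i
  rw [mem_col, mem_ofCols]

theorem card_add_le_of_disjoint {A B : Finset (Fin m)} (h : Disjoint A B) :
    A.card + B.card ≤ m := by
  rw [← card_union_of_disjoint h]
  simpa using card_le_univ (A ∪ B)

theorem exists_aug_pair {A B A' B' : Finset (Fin m)} (h' : Disjoint A' B')
    (hlt : A.card + B.card < A'.card + B'.card) :
    ∃ i, i ∉ A ∧ i ∉ B ∧ (i ∈ A' ∨ i ∈ B') := by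
  have h1 : (A ∪ B).card < (A' ∪ B').card := by
    rw [card_union_of_disjoint h']
    exact lt_of_le_of_lt (card_union_le _ _) hlt
  obtain ⟨i, hi, hi'⟩ := exists_mem_notMem_of_card_lt_card h1
  simp only [mem_union, not_or] at hi hi'
  exact ⟨i, hi'.1, hi'.2, hi⟩

/-! ### The second matroid: a partition matroid -/

def Ind2 (J : Finset α) : Prop :=
  Disjoint (col e 0 J) (col e 1 J) ∧ Disjoint (col e 2 J) (col e 3 J)

theorem ind2_aug ⦃I J : Finset α⦄ (hI : Ind2 e I) (hJ : Ind2 e J) (hlt : I.card < J.card) :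
    ∃ x ∈ J, x ∉ I ∧ Ind2 e (insert x I) := by
  rw [card_cols e I, card_cols e J] at hlt
  by_cases h : (col e 0 I).card + (col e 1 I).card < (col e 0 J).card + (col e 1 J).card
  · obtain ⟨i, h0, h1, hi⟩ := exists_aug_pair hJ.1 h
    rcases hi with hi | hi
    · refine ⟨e (i, 0), (mem_col e).1 hi, fun hh => h0 ((mem_col e).2 hh), ?_⟩
      unfold Ind2
      rw [col_insert_same, col_insert_ne e (by decide), col_insert_ne e (by decide),
        col_insert_ne e (by decide)]
      exact ⟨by simpa [disjoint_insert_left, h1] using hI.1, hI.2⟩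
    · refine ⟨e (i, 1), (mem_col e).1 hi, fun hh => h1 ((mem_col e).2 hh), ?_⟩
      unfold Ind2
      rw [col_insert_same, col_insert_ne e (by decide), col_insert_ne e (by decide),
        col_insert_ne e (by decide)]
      exact ⟨by simpa [disjoint_insert_right, h0] using hI.1, hI.2⟩
  · have h' : (col e 2 I).card + (col e 3 I).card < (col e 2 J).card + (col e 3 J).card := by
      omega
    obtain ⟨i, h0, h1, hi⟩ := exists_aug_pair hJ.2 h'
    rcases hi with hi | hi
    · refine ⟨e (i, 2), (mem_col e).1 hi, fun hh => h0 ((mem_col e).2 hh), ?_⟩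
      unfold Ind2
      rw [col_insert_same, col_insert_ne e (by decide), col_insert_ne e (by decide),
        col_insert_ne e (by decide)]
      exact ⟨hI.1, by simpa [disjoint_insert_left, h1] using hI.2⟩
    · refine ⟨e (i, 3), (mem_col e).1 hi, fun hh => h1 ((mem_col e).2 hh), ?_⟩
      unfold Ind2
      rw [col_insert_same, col_insert_ne e (by decide), col_insert_ne e (by decide),
        col_insert_ne e (by decide)]
      exact ⟨hI.1, by simpa [disjoint_insert_right, h0] using hI.2⟩

def M2 : Matroid α :=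
  (IndepMatroid.ofFinset (Set.univ : Set α) (Ind2 e)
    (by simp [Ind2, col])
    (fun _ _ hJ hIJ => ⟨hJ.1.mono (col_mono e 0 hIJ) (col_mono e 1 hIJ),
      hJ.2.mono (col_mono e 2 hIJ) (col_mono e 3 hIJ)⟩)
    (ind2_aug e) (fun _ _ => Set.subset_univ _)).matroid

theorem M2_E : (M2 e).E = Set.univ := rfl

theorem M2_indep (J : Finset α) : (M2 e).Indep (J : Set α) ↔ Ind2 e J := by
  unfold M2
  rw [IndepMatroid.matroid_indep_iff]
  exact IndepMatroid.ofFinset_indep _ _ _ _ _ _

/-! ### The first matroid: a sparse paving matroid plus parallel pairs -/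

def Bad (j : ℕ) (H : Finset (Fin m)) (J : Finset α) : Prop :=
  col e 3 J = (col e 0 J)ᶜ ∧ (col e 0 J).card = j ∧ col e 0 J ≠ H

def Ind1 (j : ℕ) (H : Finset (Fin m)) (J : Finset α) : Prop :=
  (col e 0 J).card + (col e 3 J).card ≤ m ∧ ¬ Bad e j H J ∧ Disjoint (col e 1 J) (col e 2 J)

theorem Bad.card_eq {j : ℕ} {H : Finset (Fin m)} {J : Finset α} (h : Bad e j H J) :
    (col e 0 J).card + (col e 3 J).card = m := by
  rw [h.1, card_add_card_compl]
  simp

theorem ind1_subset (j : ℕ) (H : Finset (Fin m)) ⦃I J : Finset α⦄ (hJ : Ind1 e j H J)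
    (hIJ : I ⊆ J) : Ind1 e j H I := by
  have h0 := col_mono e 0 hIJ
  have h3 := col_mono e 3 hIJ
  have c0 := card_le_card h0
  have c3 := card_le_card h3
  have hJ1 := hJ.1
  refine ⟨by omega, fun hb => hJ.2.1 ?_, hJ.2.2.mono (col_mono e 1 hIJ) (col_mono e 2 hIJ)⟩
  have hc := hb.card_eq e
  have e0 : col e 0 I = col e 0 J := eq_of_subset_of_card_le h0 (by omega)
  have e3 : col e 3 I = col e 3 J := eq_of_subset_of_card_le h3 (by omega)
  unfold Bad at hb ⊢
  rw [← e0, ← e3]
  exact hb

theorem ind1_aug (j : ℕ) (H : Finset (Fin m)) ⦃I J : Finset α⦄ (hI : Ind1 e j H I)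
    (hJ : Ind1 e j H J) (hlt : I.card < J.card) :
    ∃ x ∈ J, x ∉ I ∧ Ind1 e j H (insert x I) := by
  rw [card_cols e I, card_cols e J] at hlt
  by_cases h : (col e 1 I).card + (col e 2 I).card < (col e 1 J).card + (col e 2 J).card
  · obtain ⟨i, h0, h1, hi⟩ := exists_aug_pair hJ.2.2 h
    rcases hi with hi | hi
    · refine ⟨e (i, 1), (mem_col e).1 hi, fun hh => h0 ((mem_col e).2 hh), ?_⟩
      unfold Ind1 Bad
      rw [col_insert_same, col_insert_ne e (by decide), col_insert_ne e (by decide),
        col_insert_ne e (by decide)]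
      exact ⟨hI.1, hI.2.1, by simpa [disjoint_insert_left, h1] using hI.2.2⟩
    · refine ⟨e (i, 2), (mem_col e).1 hi, fun hh => h1 ((mem_col e).2 hh), ?_⟩
      unfold Ind1 Bad
      rw [col_insert_same, col_insert_ne e (by decide), col_insert_ne e (by decide),
        col_insert_ne e (by decide)]
      exact ⟨hI.1, hI.2.1, by simpa [disjoint_insert_right, h0] using hI.2.2⟩
  · have h' : (col e 0 I).card + (col e 3 I).card < (col e 0 J).card + (col e 3 J).card := by
      omega
    have hJ1 := hJ.1
    by_contra hcon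
    push Not at hcon
    -- every candidate in column 0 gives a bad set
    have k0 : ∀ i, i ∈ col e 0 J → i ∉ col e 0 I →
        col e 3 I = (insert i (col e 0 I))ᶜ ∧ (col e 0 I).card + 1 = j ∧
          insert i (col e 0 I) ≠ H := by
      intro i hi hi'
      have := hcon (e (i, 0)) ((mem_col e).1 hi) (fun hh => hi' ((mem_col e).2 hh))
      unfold Ind1 Bad at this
      rw [col_insert_same, col_insert_ne e (by decide), col_insert_ne e (by decide),
        col_insert_ne e (by decide), card_insert_of_notMem hi'] at this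
      by_contra hne
      exact this ⟨by omega, hne, hI.2.2⟩
    have k3 : ∀ i, i ∈ col e 3 J → i ∉ col e 3 I →
        insert i (col e 3 I) = (col e 0 I)ᶜ ∧ (col e 0 I).card = j ∧ col e 0 I ≠ H := by
      intro i hi hi'
      have := hcon (e (i, 3)) ((mem_col e).1 hi) (fun hh => hi' ((mem_col e).2 hh))
      unfold Ind1 Bad at this
      rw [col_insert_same, col_insert_ne e (by decide), col_insert_ne e (by decide),
        col_insert_ne e (by decide), card_insert_of_notMem hi'] at this
      by_contra hne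
      exact this ⟨by omega, hne, hI.2.2⟩
    by_cases hs : col e 0 J ⊆ col e 0 I
    · have c0 := card_le_card hs
      obtain ⟨i, hi, hi'⟩ := exists_mem_notMem_of_card_lt_card
        (show (col e 3 I).card < (col e 3 J).card by omega)
      obtain ⟨a1, a2, a3⟩ := k3 i hi hi'
      have hsub : col e 3 J ⊆ insert i (col e 3 I) := by
        intro x hx
        by_cases hxI : x ∈ col e 3 I
        · exact mem_insert_of_mem hxI
        · obtain ⟨b1, -, -⟩ := k3 x hx hxI
          rw [a1, ← b1]
          exact mem_insert_self _ _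
      have c3 := card_le_card hsub
      rw [card_insert_of_notMem hi'] at c3
      have e0 : col e 0 J = col e 0 I := eq_of_subset_of_card_le hs (by omega)
      have e3 : col e 3 J = insert i (col e 3 I) :=
        eq_of_subset_of_card_le hsub (by rw [card_insert_of_notMem hi']; omega)
      exact hJ.2.1 ⟨by rw [e3, e0, a1], by rw [e0, a2], by rw [e0]; exact a3⟩
    · obtain ⟨i, hi, hi'⟩ := not_subset.1 hs
      obtain ⟨a1, a2, a3⟩ := k0 i hi hi'
      have hs3 : col e 3 J ⊆ col e 3 I := by
        intro x hx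
        by_contra hxI
        obtain ⟨-, b2, -⟩ := k3 x hx hxI
        omega
      have hsub : col e 0 J ⊆ insert i (col e 0 I) := by
        intro x hx
        by_cases hxI : x ∈ col e 0 I
        · exact mem_insert_of_mem hxI
        · obtain ⟨b1, -, -⟩ := k0 x hx hxI
          have : insert i (col e 0 I) = insert x (col e 0 I) := by
            rw [← compl_inj_iff, ← a1, ← b1]
          rw [this]
          exact mem_insert_self _ _
      have c3 := card_le_card hs3
      have c0 := card_le_card hsub
      rw [card_insert_of_notMem hi'] at c0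
      have e3 : col e 3 J = col e 3 I := eq_of_subset_of_card_le hs3 (by omega)
      have e0 : col e 0 J = insert i (col e 0 I) :=
        eq_of_subset_of_card_le hsub (by rw [card_insert_of_notMem hi']; omega)
      exact hJ.2.1 ⟨by rw [e3, e0, a1], by rw [e0, card_insert_of_notMem hi', a2],
        by rw [e0]; exact a3⟩

theorem ind1_empty (hm : 0 < m) (j : ℕ) (H : Finset (Fin m)) : Ind1 e j H (∅ : Finset α) := by
  have hc : ∀ c, col e c (∅ : Finset α) = ∅ := fun c => by simp [col]
  refine ⟨by simp [hc], fun hb => ?_, by simp [hc]⟩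
  have := hb.card_eq e
  simp [hc] at this
  omega

def M1 (hm : 0 < m) (j : ℕ) (H : Finset (Fin m)) : Matroid α :=
  (IndepMatroid.ofFinset (Set.univ : Set α) (Ind1 e j H) (ind1_empty e hm j H)
    (ind1_subset e j H) (ind1_aug e j H) (fun _ _ => Set.subset_univ _)).matroid

theorem M1_E (hm : 0 < m) (j : ℕ) (H : Finset (Fin m)) : (M1 e hm j H).E = Set.univ := rfl

theorem M1_indep (hm : 0 < m) (j : ℕ) (H : Finset (Fin m)) (J : Finset α) :
    (M1 e hm j H).Indep (J : Set α) ↔ Ind1 e j H J := by
  simp [M1]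

/-! ### Bases -/

theorem Ind1.card_le {j : ℕ} {H : Finset (Fin m)} {J : Finset α} (h : Ind1 e j H J) :
    J.card ≤ 2 * m := by
  have h1 := h.1
  have h2 := card_add_le_of_disjoint h.2.2
  rw [card_cols e J]
  omega

theorem Ind2.card_le {J : Finset α} (h : Ind2 e J) : J.card ≤ 2 * m := by
  have h1 := card_add_le_of_disjoint h.1
  have h2 := card_add_le_of_disjoint h.2
  rw [card_cols e J]
  omega

omit [DecidableEq α] in
theorem isBase_of_card [Fintype α] {M : Matroid α} {r : ℕ}
    (hM : ∀ J : Finset α, M.Indep (J : Set α) → J.card ≤ r) {B : Finset α}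
    (hB : M.Indep (B : Set α)) (hc : B.card = r) : M.IsBase (B : Set α) := by
  refine hB.isBase_of_maximal fun J hJ hBJ => ?_
  obtain ⟨J', rfl⟩ := (Set.toFinite J).exists_finset_coe
  have h1 := hM J' hJ
  have h2 : B ⊆ J' := by exact_mod_cast hBJ
  rw [eq_of_subset_of_card_le h2 (by omega)]

/-- the planted common base -/
def base (H : Finset (Fin m)) : Finset α := ofCols e ![H, Hᶜ, H, Hᶜ]

/-- the planted optimal set -/
def opt (H : Finset (Fin m)) : Finset α := ofCols e ![H, Hᶜ, H, ∅]

theorem card_compl_add (H : Finset (Fin m)) : H.card + Hᶜ.card = m := by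
  rw [card_add_card_compl]; simp

theorem base_card (H : Finset (Fin m)) : (base e H).card = 2 * m := by
  have := card_compl_add H
  rw [card_cols e]
  simp only [base, col_ofCols]
  simp only [Matrix.cons_val_zero, Matrix.cons_val_one, Matrix.cons_val]
  omega

theorem base_isBase1 [Fintype α] (hm : 0 < m) (j : ℕ) (H : Finset (Fin m)) :
    (M1 e hm j H).IsBase (base e H : Set α) := by
  refine isBase_of_card (r := 2 * m) (fun J hJ => ((M1_indep e hm j H J).1 hJ).card_le e) ?_
    (base_card e H)
  rw [M1_indep]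
  have := card_compl_add H
  unfold Ind1 Bad
  simp only [base, col_ofCols]
  simp only [Matrix.cons_val_zero, Matrix.cons_val_one, Matrix.cons_val]
  exact ⟨by omega, by simp, disjoint_compl_left⟩

theorem base_isBase2 [Fintype α] (H : Finset (Fin m)) :
    (M2 e).IsBase (base e H : Set α) := by
  refine isBase_of_card (r := 2 * m) (fun J hJ => ((M2_indep e J).1 hJ).card_le e) ?_
    (base_card e H)
  rw [M2_indep]
  unfold Ind2
  simp only [base, col_ofCols]
  simp only [Matrix.cons_val_zero, Matrix.cons_val_one, Matrix.cons_val]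
  exact ⟨disjoint_compl_right, disjoint_compl_right⟩

/-- the weights -/
def wt (a : α) : ℚ := (![2, 3, 2, 0] : Fin 4 → ℚ) (e.symm a).2

theorem wt_sum (J : Finset α) : ∑ a ∈ J, wt e a =
    ((2 * (col e 0 J).card + 3 * (col e 1 J).card + 2 * (col e 2 J).card : ℕ) : ℚ) := by
  unfold wt
  rw [sum_cols e (![2, 3, 2, 0] : Fin 4 → ℚ) J, Fin.sum_univ_four]
  simp

theorem opt_feasible [Fintype α] (hm : 0 < m) (H : Finset (Fin m)) :
    Feasible (M1 e hm H.card H) (M2 e) (m + H.card) (opt e H) := by
  refine ⟨?_, base e H, base_isBase1 e hm _ H, base_isBase2 e H, ?_⟩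
  · have := card_compl_add H
    rw [card_cols e]
    simp only [opt, col_ofCols]
    simp only [Matrix.cons_val_zero, Matrix.cons_val_one, Matrix.cons_val, card_empty]
    omega
  · intro a ha
    obtain ⟨⟨i, c⟩, rfl⟩ := e.surjective a
    simp only [opt, base, mem_coe, mem_ofCols] at ha ⊢
    fin_cases c <;> simp_all

theorem key_of_optimal [Fintype α] (hm : 0 < m) (H : Finset (Fin m)) {X : Finset α}
    (hX : Optimal (M1 e hm H.card H) (M2 e) (wt e) (m + H.card) X) : col e 0 X = H := by
  obtain ⟨⟨hc, B, hB1, hB2, hXB⟩, hmax⟩ := hX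
  obtain ⟨B, rfl⟩ := (Set.toFinite B).exists_finset_coe
  have hXB' : X ⊆ B := by exact_mod_cast hXB
  have hw := hmax _ (opt_feasible e hm H)
  rw [wt_sum, wt_sum, Nat.cast_le] at hw
  simp only [opt, col_ofCols] at hw
  simp only [Matrix.cons_val_zero, Matrix.cons_val_one, Matrix.cons_val] at hw
  have hH := card_compl_add H
  have hBc : B.card = 2 * m := by
    have := hB2.ncard_eq_ncard_of_isBase (base_isBase2 e H)
    rwa [Set.ncard_coe_finset, Set.ncard_coe_finset, base_card] at this
  have i1 := (M1_indep e hm _ H B).1 hB1.indep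
  have i2 := (M2_indep e B).1 hB2.indep
  have a1 := i1.1
  have a2 := card_add_le_of_disjoint i1.2.2
  have a3 := card_add_le_of_disjoint i2.1
  have a4 := card_add_le_of_disjoint i2.2
  rw [card_cols e] at hBc hc
  have s0 := col_mono e 0 hXB'
  have c0 := card_le_card s0
  have c1 := card_le_card (col_mono e 1 hXB')
  have c2 := card_le_card (col_mono e 2 hXB')
  have c3 := card_le_card (col_mono e 3 hXB')
  have compl_of : ∀ {A C : Finset (Fin m)}, Disjoint A C → A.card + C.card = m → C = Aᶜ := by
    intro A C hd hcard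
    have := card_compl_add A
    exact eq_of_subset_of_card_le (subset_compl_iff_disjoint_left.2 hd) (by omega)
  have e1 : col e 1 B = (col e 0 B)ᶜ := compl_of i2.1 (by omega)
  have e2 : col e 2 B = (col e 1 B)ᶜ := compl_of i1.2.2 (by omega)
  have e3 : col e 3 B = (col e 2 B)ᶜ := compl_of i2.2 (by omega)
  have e3' : col e 3 B = (col e 0 B)ᶜ := by rw [e3, e2, e1, compl_compl]
  have hj : (col e 0 B).card = H.card := by omega
  have hBH : col e 0 B = H := by
    by_contra hne
    exact i1.2.1 ⟨e3', hj, hne⟩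
  rw [← hBH]
  exact eq_of_subset_of_card_le s0 (by omega)

theorem oracle_eq (hm : 0 < m) {j : ℕ} (hj : 0 < j) (H : Finset (Fin m)) (q : Bool × Finset α)
    (hq : col e 0 q.2 ≠ H) :
    oracle (M1 e hm j H) (M2 e) q = oracle (M1 e hm j ∅) (M2 e) q := by
  unfold oracle
  split_ifs
  · congr 1
    rw [M1_indep, M1_indep]
    have : Bad e j H q.2 ↔ Bad e j ∅ q.2 := by
      unfold Bad
      refine and_congr_right fun _ => and_congr_right fun hc => ?_
      refine ⟨fun _ h0 => ?_, fun _ => hq⟩
      rw [h0] at hc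
      simp at hc
      omega
    unfold Ind1
    rw [this]
  · rfl

end Cols

/-! ### Counting -/

theorem poly_lt (p : Polynomial ℕ) :
    ∃ j : ℕ, 0 < j ∧ p.eval (32 * j) * (p.eval (32 * j) + 1) < (2 * j).choose j := by
  obtain ⟨C, d, hC⟩ : ∃ C d : ℕ, ∀ x : ℕ, 0 < x →
      p.eval (32 * x) * (p.eval (32 * x) + 1) ≤ C * x ^ d := by
    have gen : ∀ q : Polynomial ℕ, ∃ C d : ℕ, ∀ x : ℕ, 0 < x → q.eval x ≤ C * x ^ d := by
      intro q
      induction q using Polynomial.induction_on' with
      | add q r hq hr =>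
        obtain ⟨C, d, h⟩ := hq
        obtain ⟨C', d', h'⟩ := hr
        refine ⟨C + C', d + d', fun x hx => ?_⟩
        have h1 : x ^ d ≤ x ^ (d + d') := Nat.pow_le_pow_right hx (by omega)
        have h2 : x ^ d' ≤ x ^ (d + d') := Nat.pow_le_pow_right hx (by omega)
        rw [Polynomial.eval_add, add_mul]
        exact add_le_add ((h x hx).trans (Nat.mul_le_mul_left _ h1))
          ((h' x hx).trans (Nat.mul_le_mul_left _ h2))
      | monomial n a => exact ⟨a, n, fun x _ => by simp⟩
    obtain ⟨C, d, h⟩ := gen ((p.comp (Polynomial.C 32 * Polynomial.X)) *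
      (p.comp (Polynomial.C 32 * Polynomial.X) + 1))
    refine ⟨C, d, fun x hx => ?_⟩
    simpa [Polynomial.eval_comp] using h x hx
  have hlim := tendsto_pow_const_div_const_pow_of_one_lt (d + 1) (r := (4 : ℝ)) (by norm_num)
  have hev : ∀ᶠ n : ℕ in Filter.atTop, (n : ℝ) ^ (d + 1) / 4 ^ n < 1 / (C + 1) :=
    hlim.eventually (gt_mem_nhds (by positivity))
  obtain ⟨j, hj1, hj2⟩ := (hev.and (Filter.eventually_ge_atTop 4)).exists
  refine ⟨j, by omega, ?_⟩
  have h4 := Nat.four_pow_lt_mul_centralBinom j hj2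
  rw [Nat.centralBinom_eq_two_mul_choose] at h4
  have h5 : (C + 1) * j ^ (d + 1) < 4 ^ j := by
    rw [div_lt_div_iff₀ (by positivity) (by positivity)] at hj1
    have : (((C + 1) * j ^ (d + 1) : ℕ) : ℝ) < ((4 ^ j : ℕ) : ℝ) := by
      push_cast
      linarith
    exact_mod_cast this
  have h6 := hC j (by omega)
  have h7 : j * (C * j ^ d) < j * (2 * j).choose j := by
    calc j * (C * j ^ d) = C * j ^ (d + 1) := by ring
      _ ≤ (C + 1) * j ^ (d + 1) := Nat.mul_le_mul_right _ (by omega)
      _ < 4 ^ j := h5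
      _ < _ := h4
  exact lt_of_le_of_lt h6 (Nat.lt_of_mul_lt_mul_left h7)

theorem eval_mono (p : Polynomial ℕ) {x y : ℕ} (h : x ≤ y) : p.eval x ≤ p.eval y := by
  induction p using Polynomial.induction_on' with
  | add q r hq hr => simpa [Polynomial.eval_add] using add_le_add hq hr
  | monomial n a => simpa using Nat.mul_le_mul_left a (Nat.pow_le_pow_left h n)

theorem inputSize_le {m : ℕ} (e : Fin m × Fin 4 ≃ Fin (m * 4)) :
    inputSize (m * 4) (wt e) ≤ 16 * m := by
  unfold inputSize
  have : ∑ a : Fin (m * 4), (Nat.size (wt e a).num.natAbs + Nat.size (wt e a).den)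
      ≤ ∑ _a : Fin (m * 4), 3 := by
    refine sum_le_sum fun a _ => ?_
    unfold wt
    generalize (e.symm a).2 = c
    fin_cases c <;> simp <;> decide
  simp at this
  omega

theorem main : ¬ ∃ (A : OracleAlgorithm) (p : Polynomial ℕ),
    ∀ (n : ℕ) (M₁ M₂ : Matroid (Fin n)) (w : Fin n → ℚ) (k : ℕ),
      M₁.E = Set.univ → M₂.E = Set.univ → (∀ e, 0 ≤ w e) →
      (∃ B : Finset (Fin n), M₁.IsBase (B : Set (Fin n)) ∧ M₂.IsBase (B : Set (Fin n)) ∧
        k ≤ B.card) →
      A.seeds n w k + 1 ≤ p.eval (inputSize n w) *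
        Set.ncard {ρ : Fin (A.seeds n w k + 1) | ∃ X : Finset (Fin n),
          run (A.proc n w k ρ) (oracle M₁ M₂) (p.eval (inputSize n w)) [] = some X ∧
            Optimal M₁ M₂ w k X} := by
  classical
  rintro ⟨A, p, hA⟩
  obtain ⟨j, hj, hlt⟩ := poly_lt p
  set m := 2 * j with hm_def
  have hm : 0 < m := by omega
  let e : Fin m × Fin 4 ≃ Fin (m * 4) := finProdFinEquiv
  set t := p.eval (inputSize (m * 4) (wt e)) with ht
  have htle : t ≤ p.eval (32 * j) := eval_mono p ((inputSize_le e).trans (by omega))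
  set N := A.seeds (m * 4) (wt e) (m + j) + 1 with hN
  let S : Finset (Finset (Fin m)) := powersetCard j univ
  let succ : Finset (Fin m) → Fin N → Prop := fun H ρ => ∃ X : Finset (Fin (m * 4)),
    run (A.proc (m * 4) (wt e) (m + j) ρ) (oracle (M1 e hm j H) (M2 e)) t [] = some X ∧
      Optimal (M1 e hm j H) (M2 e) (wt e) (m + j) X
  have h1 : ∀ H ∈ S, N ≤ t * (univ.filter (fun ρ => succ H ρ)).card := by
    intro H hH
    have hc : H.card = j := (mem_powersetCard.1 hH).2
    have := hA (m * 4) (M1 e hm j H) (M2 e) (wt e) (m + j) rfl rfl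
      (by
        intro a
        unfold wt
        generalize (e.symm a).2 = c
        fin_cases c <;> simp)
      ⟨base e H, base_isBase1 e hm j H, base_isBase2 e H, by rw [base_card]; omega⟩
    rw [← Set.ncard_coe_finset, coe_filter_univ]
    exact this
  have h2 : ∀ ρ : Fin N, (S.filter (fun H => succ H ρ)).card ≤ t + 1 := by
    intro ρ
    obtain ⟨s, hs, hs'⟩ := adversary (A.proc (m * 4) (wt e) (m + j) ρ)
      (oracle (M1 e hm j ∅) (M2 e)) (fun H => oracle (M1 e hm j H) (M2 e)) (col e 0)
      (fun H q hq => oracle_eq e hm hj H q hq) t []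
    refine le_trans (card_le_card fun H hH => ?_) hs
    obtain ⟨hHS, X, hX, hopt⟩ := mem_filter.1 hH
    have hc : H.card = j := (mem_powersetCard.1 hHS).2
    refine hs' H X hX ?_
    apply key_of_optimal e hm H
    rw [hc]
    exact hopt
  have h3 : ∑ H ∈ S, (univ.filter (fun ρ => succ H ρ)).card
      = ∑ ρ : Fin N, (S.filter (fun H => succ H ρ)).card := by
    simp only [card_filter]
    exact sum_comm
  have h4 : S.card * N ≤ t * (N * (t + 1)) := by
    calc S.card * N = ∑ _H ∈ S, N := by simp
      _ ≤ ∑ H ∈ S, t * (univ.filter (fun ρ => succ H ρ)).card := sum_le_sum h1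
      _ = t * ∑ ρ : Fin N, (S.filter (fun H => succ H ρ)).card := by rw [← mul_sum, h3]
      _ ≤ t * ∑ _ρ : Fin N, (t + 1) := Nat.mul_le_mul_left _ (sum_le_sum fun ρ _ => h2 ρ)
      _ = t * (N * (t + 1)) := by simp
  have hS : S.card = m.choose j := by simp [S]
  have hNpos : 0 < N := by omega
  have h5 : S.card ≤ t * (t + 1) := by
    have : S.card * N ≤ (t * (t + 1)) * N := by
      calc S.card * N ≤ t * (N * (t + 1)) := h4
        _ = (t * (t + 1)) * N := by ring
    exact Nat.le_of_mul_le_mul_right this hNpos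
  have h6 : t * (t + 1) ≤ p.eval (32 * j) * (p.eval (32 * j) + 1) :=
    Nat.mul_le_mul htle (by omega)
  omega

end Pool.Agent.Lib.MP_1bbcfd_lc
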